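import Pool.Agent.T9h59.SQ.Count
import Pool.Agent.Q278.KT.Fin

/-!
# The differences of the square roots of consecutive primes: few large ones, from few poor intervals

`Pool.Agent.Q278.KT.mainp_half` (starting library): at most `X ^ (0.306 - η)` poor intervals of length `≥ X ^ (1/2 - η)` up
to `X`. So for some `η > 0` the number of `n ≤ X` with `√p_{n+1} - √p_n > n ^ (-η)` is `O_ε(X ^ (0.306 + ε))`.
-/

set_option autoImplicit false

namespace Pool.Agent.T9h59.SQ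

open Finset Pool.Agent.Q240.KS

lemma pic_zero {p q : ℕ} {h : ℝ} (h0 : 0 ≤ h) (hq : (p : ℝ) + h < q) (hno : ∀ r : ℕ, p < r → r < q → ¬ r.Prime) :
    pic (p : ℝ) h = 0 := by
  unfold pic
  rw [card_eq_zero, filter_eq_empty_iff]
  intro r hr
  rw [mem_Ioc, Nat.floor_natCast] at hr
  apply hno r hr.1
  have h1 : (r : ℝ) ≤ (p : ℝ) + h := (Nat.le_floor_iff (by positivity)).1 hr.2
  exact_mod_cast lt_of_le_of_lt h1 hq

/-- the `n`-th prime, `p_1 = 2` -/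
noncomputable def pr (n : ℕ) : ℕ := Nat.nth Nat.Prime (n - 1)

lemma pr_prime (n : ℕ) : (pr n).Prime := Nat.prime_nth_prime _

lemma no_prime (n : ℕ) (hn : 1 ≤ n) (r : ℕ) (h1 : pr n < r) (h2 : r < pr (n + 1)) : ¬ r.Prime := by
  intro hr
  unfold pr at h1 h2
  rw [Nat.add_sub_cancel] at h2
  obtain ⟨k, hk⟩ : ∃ k, Nat.nth Nat.Prime k = r := ⟨Nat.count Nat.Prime r, Nat.nth_count hr⟩
  rw [← hk] at h1 h2
  rw [Nat.nth_lt_nth Nat.infinite_setOfPred_prime] at h1 h2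
  omega

lemma pr_lt {m n : ℕ} (hm : 1 ≤ m) (h : m < n) : pr (m + 1) ≤ pr n := by
  unfold pr
  exact (Nat.nth_monotone Nat.infinite_setOfPred_prime) (by omega)

lemma le_pr (n : ℕ) (hn : 1 ≤ n) : n ≤ pr n := by
  unfold pr
  have := Nat.add_two_le_nth_prime (n - 1)
  omega

/-- a large difference gives a long gap -/
lemma gap_of {η : ℝ} (hη : 0 ≤ η) {n : ℕ} (hn : 1 ≤ n) (h : ¬ Small η n) :
    2 * ((pr n : ℕ) : ℝ) ^ (1 / 2 - η) < (pr (n + 1) : ℝ) - pr n := by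
  unfold Small dsq at h
  rw [not_le] at h
  have hn0 : (0 : ℝ) < n := by exact_mod_cast hn
  have hnp : (n : ℝ) ≤ pr n := by exact_mod_cast le_pr n hn
  have hp0 : (0 : ℝ) < pr n := lt_of_lt_of_le hn0 hnp
  have e : ((Nat.nth Nat.Prime n : ℕ) : ℝ) = pr (n + 1) := by unfold pr; rw [Nat.add_sub_cancel]
  have e' : ((Nat.nth Nat.Prime (n - 1) : ℕ) : ℝ) = pr n := rfl
  rw [e, e'] at h
  have h1 : ((pr n : ℕ) : ℝ) ^ (-η) ≤ (n : ℝ) ^ (-η) := by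
    rw [Real.rpow_neg hp0.le, Real.rpow_neg hn0.le]
    exact inv_anti₀ (Real.rpow_pos_of_pos hn0 _) (Real.rpow_le_rpow hn0.le hnp hη)
  set a := √(pr n : ℝ) with ha
  set b := √(pr (n + 1) : ℝ) with hb
  have ha0 : 0 < a := Real.sqrt_pos.2 hp0
  have haa : a * a = pr n := Real.mul_self_sqrt hp0.le
  have hbb : b * b = pr (n + 1) := Real.mul_self_sqrt (Nat.cast_nonneg _)
  have h2 : 0 < ((pr n : ℕ) : ℝ) ^ (-η) := Real.rpow_pos_of_pos hp0 _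
  have h3 : ((pr n : ℕ) : ℝ) ^ (-η) < b - a := lt_of_le_of_lt h1 h
  have h4 : ((pr n : ℕ) : ℝ) ^ (1 / 2 - η) = a * ((pr n : ℕ) : ℝ) ^ (-η) := by
    rw [ha, Real.sqrt_eq_rpow, ← Real.rpow_add hp0]
    congr 1
  rw [h4]
  obtain ⟨t, ht⟩ : ∃ t : ℝ, t = ((pr n : ℕ) : ℝ) ^ (-η) := ⟨_, rfl⟩
  rw [← ht] at h2 h3 ⊢
  have h5 : (pr (n + 1) : ℝ) - pr n = (b - a) * (b + a) := by rw [← haa, ← hbb]; ring
  rw [h5]
  have h6 : t * (2 * a) < (b - a) * (b + a) := by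
    have h7 : 2 * a < b + a := by linarith
    exact mul_lt_mul h3 h7.le (by linarith) (by linarith)
  linarith

/-- the number of the large differences for some `η > 0` -/
theorem count2_of {e0 : ℝ} (he : 0 ≤ e0) (hM : MAINP (1 / 2) e0) : ∃ η : ℝ, 0 < η ∧ ∀ ε : ℝ, 0 < ε → ∃ C : ℝ,
    ∀ X : ℕ, 1 ≤ X → ({n : ℕ | 1 ≤ n ∧ n ≤ X ∧ ¬ Small η n}.ncard : ℝ) ≤ C * (X : ℝ) ^ (e0 + ε) := by
  classical
  obtain ⟨c₀, η₀, Y₀, hc₀, hη₀, hM⟩ := hM
  obtain ⟨η, hη⟩ : ∃ η : ℝ, η = min η₀ (1 / 4) := ⟨_, rfl⟩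
  have hη0 : 0 < η := by rw [hη]; exact lt_min hη₀ (by norm_num)
  have hη1 : η ≤ η₀ := by rw [hη]; exact min_le_left _ _
  have hη2 : η ≤ 1 / 4 := by rw [hη]; exact min_le_right _ _
  refine ⟨η, hη0, fun ε hε => ?_⟩
  -- parameters
  obtain ⟨δ, hδ, hδ1⟩ : ∃ δ : ℝ, 0 < δ ∧ (1 + δ) * (e0 + δ) ≤ e0 + ε := by
    refine ⟨min 1 (ε / (e0 + 2)), lt_min one_pos (by positivity), ?_⟩
    set d := min 1 (ε / (e0 + 2)) with hd
    have h1 : d ≤ 1 := min_le_left _ _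
    have h2 : d ≤ ε / (e0 + 2) := min_le_right _ _
    rw [le_div_iff₀ (by linarith)] at h2
    have h0 : 0 < d := lt_min one_pos (by positivity)
    nlinarith
  obtain ⟨C₁, hC₁, hb⟩ := nth_bound δ hδ
  obtain ⟨j₀, hj₀⟩ : ∃ j₀ : ℕ, (10 : ℝ) + 2 * |Y₀| ≤ j₀ := ⟨_, Nat.le_ceil _⟩
  have hjY : ∀ j : ℕ, j₀ ≤ j → Y₀ ≤ ((j : ℝ) + 1 / 2) / 2 ∧ (10 : ℝ) ≤ j := by
    intro j hj
    have hj' : (j₀ : ℝ) ≤ j := by exact_mod_cast hj
    have habs := abs_nonneg Y₀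
    have := le_abs_self Y₀
    constructor <;> linarith
  -- one block
  have hblock : ∀ (j : ℕ), j₀ ≤ j → ∀ B : Finset ℕ, (∀ n ∈ B, 1 ≤ n ∧ (j : ℝ) ≤ 2 * Real.log (pr n) ∧
      2 * Real.log (pr n) < j + 1 ∧ ¬ Small η n) → (B.card : ℝ) ≤ Real.exp (e0 * (((j : ℝ) + 1 / 2) / 2)) := by
    intro j hj B hB
    obtain ⟨hY1, hj10⟩ := hjY j hj
    obtain ⟨Y, hY⟩ : ∃ Y : ℝ, Y = ((j : ℝ) + 1 / 2) / 2 := ⟨_, rfl⟩
    rw [← hY] at hY1 ⊢
    have hY0 : 0 < Y := by rw [hY]; linarith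
    obtain ⟨h, hh⟩ : ∃ h : ℝ, h = Real.exp ((1 / 2 - η) * Y) := ⟨_, rfl⟩
    have hh0 : 0 < h := by rw [hh]; positivity
    have hgap : ∀ n ∈ B, h < (pr (n + 1) : ℝ) - pr n := by
      intro n hn
      obtain ⟨h1, h2, h3, h4⟩ := hB n hn
      refine lt_of_le_of_lt ?_ (gap_of hη0.le h1 h4)
      have hp0 : (0 : ℝ) < pr n := by exact_mod_cast (pr_prime n).pos
      rw [Real.rpow_def_of_pos hp0, hh]
      have e1 : (1 / 2 - η) * Y ≤ Real.log (pr n) * (1 / 2 - η) + 1 / 8 := by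
        have : Y - 1 / 4 ≤ Real.log (pr n) := by rw [hY]; linarith
        nlinarith
      have e2 : Real.exp (1 / 8) ≤ 2 := by
        have h5 := Real.exp_one_lt_d9
        have h6 : Real.exp (1 / 8) ^ 8 = Real.exp 1 := by
          rw [← Real.exp_nat_mul]; norm_num
        by_contra hcon
        push Not at hcon
        have h7 : (2 : ℝ) ^ 8 < Real.exp (1 / 8) ^ 8 := pow_lt_pow_left₀ hcon (by norm_num) (by norm_num)
        rw [h6] at h7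
        norm_num at h7
        linarith
      calc Real.exp ((1 / 2 - η) * Y) ≤ Real.exp (Real.log (pr n) * (1 / 2 - η) + 1 / 8) := Real.exp_le_exp.2 e1
        _ = Real.exp (1 / 8) * Real.exp (Real.log (pr n) * (1 / 2 - η)) := by rw [Real.exp_add]; ring
        _ ≤ 2 * Real.exp (Real.log (pr n) * (1 / 2 - η)) :=
            mul_le_mul_of_nonneg_right e2 (Real.exp_nonneg _)
    have hsep : ∀ m ∈ B, ∀ n ∈ B, m < n → h < (pr n : ℝ) - pr m := by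
      intro m hm n hn hmn
      have h1 : (pr (m + 1) : ℝ) ≤ pr n := by exact_mod_cast pr_lt (hB m hm).1 hmn
      have := hgap m hm
      linarith
    have hinj : Set.InjOn (fun n : ℕ => (pr n : ℝ)) B := by
      intro m hm n hn hmn
      simp only at hmn
      by_contra hne
      rcases Nat.lt_or_gt_of_ne hne with h1 | h1
      · have := hsep m hm n hn h1
        linarith
      · have := hsep n hn m hm h1
        linarith
    have hcard : (B.image (fun n : ℕ => (pr n : ℝ))).card = B.card := card_image_of_injOn hinj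
    rw [← hcard]
    have hfin := hM Y hY1 h (by
        rw [hh]
        apply Real.exp_le_exp.2
        apply mul_le_mul_of_nonneg_right _ hY0.le
        linarith) (by
        rw [hh]
        apply Real.exp_le_exp.2
        apply mul_le_mul_of_nonneg_right _ hY0.le
        linarith) (B.image (fun n : ℕ => (pr n : ℝ))) (by
        intro y hy
        obtain ⟨n, hn, rfl⟩ := mem_image.1 hy
        obtain ⟨h1, h2, h3, h4⟩ := hB n hn
        refine ⟨by exact_mod_cast (pr_prime n).pos, ?_, ?_⟩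
        · rw [abs_le, hY]
          constructor <;> linarith
        · rw [pic_zero hh0.le (q := pr (n + 1)) (by linarith [hgap n hn]) (fun r hr1 hr2 => no_prime n h1 r hr1 hr2)]
          rw [Nat.cast_zero]
          positivity) (by
        intro y hy y' hy' hne
        obtain ⟨m, hm, rfl⟩ := mem_image.1 hy
        obtain ⟨n, hn, rfl⟩ := mem_image.1 hy'
        have hmn : m ≠ n := fun h0 => hne (by rw [h0])
        rcases Nat.lt_or_gt_of_ne hmn with h1 | h1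
        · have := hsep m hm n hn h1
          rw [abs_sub_comm]
          exact this.le.trans (le_abs_self _)
        · have := hsep n hn m hm h1
          exact this.le.trans (le_abs_self _))
    refine hfin.trans (Real.exp_le_exp.2 ?_)
    exact mul_le_mul_of_nonneg_right (by linarith) hY0.le
  -- the sum over the blocks
  obtain ⟨C₂, hC₂⟩ : ∃ C₂ : ℝ, C₂ = 2 * (2 / δ + 2) * Real.exp (e0 / 4) := ⟨_, rfl⟩
  refine ⟨(Real.exp j₀ + C₂) * C₁ ^ (e0 + δ) + Real.exp j₀, fun X hX => ?_⟩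
  have hX1 : (1 : ℝ) ≤ X := by exact_mod_cast hX
  obtain ⟨P, hP⟩ : ∃ P : ℝ, P = (pr X : ℝ) := ⟨_, rfl⟩
  have hP1 : (1 : ℝ) ≤ P := by rw [hP]; exact_mod_cast (pr_prime X).pos
  have hPX : P ≤ C₁ * (X : ℝ) ^ (1 + δ) := by
    refine le_trans ?_ (hb X hX)
    rw [hP]
    unfold pr
    exact_mod_cast (Nat.nth_monotone Nat.infinite_setOfPred_prime) (Nat.sub_le X 1)
  set bad : ℕ → Finset ℕ := fun j => (Icc 1 X).filter (fun n : ℕ => ⌊2 * Real.log (pr n)⌋₊ = j ∧ ¬ Small η n) with hbad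
  set J : ℕ := ⌊2 * Real.log P⌋₊ with hJ
  have hlogP : 0 ≤ Real.log P := Real.log_nonneg hP1
  have hbadc : ∀ j, j₀ ≤ j → ((bad j).card : ℝ) ≤ Real.exp (e0 * (((j : ℝ) + 1 / 2) / 2)) := by
    intro j hj
    apply hblock j hj
    intro n hn
    rw [hbad, mem_filter, mem_Icc] at hn
    obtain ⟨⟨h1, h2⟩, h3, h4⟩ := hn
    have hp1 : (1 : ℝ) ≤ pr n := by exact_mod_cast (pr_prime n).pos
    have h0 : 0 ≤ 2 * Real.log (pr n) := mul_nonneg (by norm_num) (Real.log_nonneg hp1)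
    refine ⟨h1, ?_, ?_, h4⟩
    · rw [← h3]; exact Nat.floor_le h0
    · rw [← h3]; exact Nat.lt_floor_add_one _
  have hsub : {n : ℕ | 1 ≤ n ∧ n ≤ X ∧ ¬ Small η n} ⊆
      ((Icc 1 ⌊Real.exp j₀⌋₊ ∪ (Icc j₀ J).biUnion bad : Finset ℕ) : Set ℕ) := by
    rintro n ⟨h1, h2, h3⟩
    have hp1 : (1 : ℝ) ≤ pr n := by exact_mod_cast (pr_prime n).pos
    have hp0 : (0 : ℝ) < pr n := by linarith
    rw [mem_coe, mem_union]
    by_cases hlt : ⌊2 * Real.log (pr n)⌋₊ < j₀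
    · left
      rw [mem_Icc]
      refine ⟨h1, Nat.le_floor ?_⟩
      have h4 := Nat.lt_floor_add_one (2 * Real.log (pr n))
      have h5 : ((⌊2 * Real.log (pr n)⌋₊ : ℕ) : ℝ) + 1 ≤ j₀ := by exact_mod_cast hlt
      have h6 : (n : ℝ) ≤ pr n := by exact_mod_cast le_pr n h1
      refine h6.trans ?_
      rw [← Real.log_le_iff_le_exp hp0]
      have := Real.log_nonneg hp1
      linarith
    · right
      push Not at hlt
      rw [mem_biUnion]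
      refine ⟨⌊2 * Real.log (pr n)⌋₊, ?_, ?_⟩
      · rw [mem_Icc]
        refine ⟨hlt, ?_⟩
        apply Nat.floor_le_floor
        have h7 : (pr n : ℝ) ≤ P := by
          rw [hP]
          unfold pr
          exact_mod_cast (Nat.nth_monotone Nat.infinite_setOfPred_prime) (by omega)
        have := Real.log_le_log hp0 h7
        linarith
      · rw [hbad]
        exact mem_filter.2 ⟨mem_Icc.2 ⟨h1, h2⟩, rfl, h3⟩
  have h1 := Set.ncard_le_ncard hsub (finite_toSet _)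
  rw [Set.ncard_coe_finset] at h1
  have h2 := card_union_le (Icc 1 ⌊Real.exp j₀⌋₊) ((Icc j₀ J).biUnion bad)
  have h3 : ((((Icc j₀ J).biUnion bad).card : ℕ) : ℝ) ≤ ∑ j ∈ Icc j₀ J, Real.exp (e0 * (Real.log P + 1 / 4)) := by
    have h4 : ((((Icc j₀ J).biUnion bad).card : ℕ) : ℝ) ≤ ∑ j ∈ Icc j₀ J, (((bad j).card : ℕ) : ℝ) := by
      exact_mod_cast card_biUnion_le
    refine h4.trans (sum_le_sum fun j hj => ?_)
    rw [mem_Icc] at hj
    refine (hbadc j hj.1).trans (Real.exp_le_exp.2 (mul_le_mul_of_nonneg_left ?_ he))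
    have hjJ : (j : ℝ) ≤ 2 * Real.log P := by
      have h6 : (j : ℝ) ≤ J := by exact_mod_cast hj.2
      exact h6.trans (Nat.floor_le (by positivity))
    linarith
  rw [sum_const, nsmul_eq_mul, Nat.card_Icc] at h3
  have h4 : ((J + 1 - j₀ : ℕ) : ℝ) ≤ 2 * Real.log P + 1 := by
    have h5 : ((J + 1 - j₀ : ℕ) : ℝ) ≤ J + 1 := by exact_mod_cast Nat.sub_le _ _
    have h6 : (J : ℝ) ≤ 2 * Real.log P := Nat.floor_le (by positivity)
    linarith
  have h5 : Real.exp (e0 * (Real.log P + 1 / 4)) = Real.exp (e0 / 4) * P ^ e0 := by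
    rw [Real.rpow_def_of_pos (by linarith), ← Real.exp_add]
    congr 1
    ring
  have hPδ : (1 : ℝ) ≤ P ^ δ := Real.one_le_rpow hP1 hδ.le
  have h6 : 2 * Real.log P + 1 ≤ 2 * (2 / δ + 2) * P ^ δ := by
    have h7 := Real.log_le_rpow_div (by linarith : (0 : ℝ) ≤ P) hδ
    have h8 : P ^ δ / δ * 2 = 2 / δ * P ^ δ := by ring
    have h9 : 0 < 2 / δ := by positivity
    nlinarith
  have h7 : ((((Icc j₀ J).biUnion bad).card : ℕ) : ℝ) ≤ C₂ * P ^ (e0 + δ) := by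
    rw [h5] at h3
    refine h3.trans ?_
    have e1 : ((J + 1 - j₀ : ℕ) : ℝ) * (Real.exp (e0 / 4) * P ^ e0) ≤
        (2 * (2 / δ + 2) * P ^ δ) * (Real.exp (e0 / 4) * P ^ e0) :=
      mul_le_mul_of_nonneg_right (h4.trans h6) (by positivity)
    refine e1.trans (le_of_eq ?_)
    rw [hC₂, Real.rpow_add (by linarith)]
    ring
  have h8 : ((Icc 1 ⌊Real.exp j₀⌋₊).card : ℝ) ≤ Real.exp j₀ := by
    rw [Nat.card_Icc, Nat.add_sub_cancel]
    exact Nat.floor_le (Real.exp_nonneg _)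
  have h9 : ({n : ℕ | 1 ≤ n ∧ n ≤ X ∧ ¬ Small η n}.ncard : ℝ) ≤ Real.exp j₀ + C₂ * P ^ (e0 + δ) := by
    have e1 : ({n : ℕ | 1 ≤ n ∧ n ≤ X ∧ ¬ Small η n}.ncard : ℝ) ≤
        (Icc 1 ⌊Real.exp j₀⌋₊).card + ((Icc j₀ J).biUnion bad).card := by
      exact_mod_cast h1.trans h2
    linarith
  have h10 : P ^ (e0 + δ) ≤ C₁ ^ (e0 + δ) * (X : ℝ) ^ (e0 + ε) := by
    calc P ^ (e0 + δ) ≤ (C₁ * (X : ℝ) ^ (1 + δ)) ^ (e0 + δ) :=
          Real.rpow_le_rpow (by linarith) hPX (by linarith)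
      _ = C₁ ^ (e0 + δ) * (X : ℝ) ^ ((1 + δ) * (e0 + δ)) := by
          rw [Real.mul_rpow hC₁.le (by positivity), ← Real.rpow_mul (by linarith)]
      _ ≤ C₁ ^ (e0 + δ) * (X : ℝ) ^ (e0 + ε) :=
          mul_le_mul_of_nonneg_left (Real.rpow_le_rpow_of_exponent_le hX1 hδ1) (by positivity)
  have hXe : (1 : ℝ) ≤ (X : ℝ) ^ (e0 + ε) := Real.one_le_rpow hX1 (by linarith)
  have hC₂0 : 0 ≤ C₂ := by rw [hC₂]; positivity
  have hE0 : 0 < Real.exp (j₀ : ℝ) := Real.exp_pos _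
  have hK0 : 0 ≤ C₁ ^ (e0 + δ) := by positivity
  have h11 : C₂ * P ^ (e0 + δ) ≤ C₂ * (C₁ ^ (e0 + δ) * (X : ℝ) ^ (e0 + ε)) := mul_le_mul_of_nonneg_left h10 hC₂0
  have h12 : Real.exp (j₀ : ℝ) ≤ Real.exp j₀ * (X : ℝ) ^ (e0 + ε) := by nlinarith
  have h13 : 0 ≤ Real.exp (j₀ : ℝ) * C₁ ^ (e0 + δ) * (X : ℝ) ^ (e0 + ε) := by positivity
  nlinarith

/-- for some `η > 0` all but `O(X ^ (0.306 + ε))` of the `n ≤ X` satisfy `√p_{n+1} - √p_n ≤ n ^ (-η)` -/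
theorem count2 : ∃ η : ℝ, 0 < η ∧ ∀ ε : ℝ, 0 < ε → ∃ C : ℝ,
    ∀ X : ℕ, 1 ≤ X → ({n : ℕ | 1 ≤ n ∧ n ≤ X ∧ ¬ Small η n}.ncard : ℝ) ≤ C * (X : ℝ) ^ (0.306 + ε) :=
  count2_of (by norm_num) Pool.Agent.Q278.KT.mainp_half

/-- the number of the large differences: exponent `s = 1/2 + η`, and `s = 0.306` for `η ≤ η₁` -/
theorem count_rate : ∃ η₁ : ℝ, 0 < η₁ ∧ ∀ η s : ℝ, 0 ≤ η → (s = 1 / 2 + η ∨ η ≤ η₁ ∧ s = 0.306) → 0 ≤ s ∧
    ∀ ε : ℝ, 0 < ε → ∃ C : ℝ, ∀ X : ℕ, 1 ≤ X →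
      ({n : ℕ | 1 ≤ n ∧ n ≤ X ∧ ¬ Small η n}.ncard : ℝ) ≤ C * (X : ℝ) ^ (s + ε) := by
  obtain ⟨η₁, hη₁, h⟩ := count2
  refine ⟨η₁, hη₁, fun η s hη hs => ?_⟩
  rcases hs with hs | ⟨hle, hs⟩
  · refine ⟨by rw [hs]; positivity, fun ε hε => ?_⟩
    rw [hs]
    exact count η hη ε hε
  · refine ⟨by rw [hs]; norm_num, fun ε hε => ?_⟩
    obtain ⟨C, hC⟩ := h ε hε
    refine ⟨C, fun X hX => ?_⟩
    rw [hs]
    refine le_trans ?_ (hC X hX)
    have hfin : {n : ℕ | 1 ≤ n ∧ n ≤ X ∧ ¬ Small η₁ n}.Finite :=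
      (Set.finite_Icc 1 X).subset (fun n hn => ⟨hn.1, hn.2.1⟩)
    have hsub : {n : ℕ | 1 ≤ n ∧ n ≤ X ∧ ¬ Small η n} ⊆ {n : ℕ | 1 ≤ n ∧ n ≤ X ∧ ¬ Small η₁ n} := by
      rintro n ⟨h1, h2, h3⟩
      refine ⟨h1, h2, fun h4 => h3 ?_⟩
      unfold Small at h4 ⊢
      refine h4.trans (Real.rpow_le_rpow_of_exponent_le (by exact_mod_cast h1) (by linarith))
    exact_mod_cast Set.ncard_le_ncard hsub hfin

end Pool.Agent.T9h59.SQ
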