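import Mathlib

/-!
# The differences of the square roots of consecutive primes: the number of the large ones

`d_n = √p_{n+1} - √p_n`. The sum of the `d_n` telescopes, and so `d_n ≤ n^(-η)` for all `n ≤ X` but `O_ε(X^(1/2 + η + ε))`.
-/

set_option autoImplicit false

namespace Pool.Agent.T9h59.SQ

open Finset

/-- `d_n = √p_{n+1} - √p_n` for `n ≥ 1`, where `p_1 = 2, p_2 = 3, …` are the primes -/
noncomputable def dsq (n : ℕ) : ℝ :=
  √((Nat.nth Nat.Prime n : ℕ) : ℝ) - √((Nat.nth Nat.Prime (n - 1) : ℕ) : ℝ)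

/-- `d_n ≤ n^(-η)` -/
def Small (η : ℝ) (n : ℕ) : Prop := dsq n ≤ (n : ℝ) ^ (-η)

theorem dsq_nonneg (n : ℕ) : 0 ≤ dsq n := by
  unfold dsq
  have h : Nat.nth Nat.Prime (n - 1) ≤ Nat.nth Nat.Prime n :=
    (Nat.nth_monotone Nat.infinite_setOfPred_prime) (Nat.sub_le n 1)
  have h2 : ((Nat.nth Nat.Prime (n - 1) : ℕ) : ℝ) ≤ ((Nat.nth Nat.Prime n : ℕ) : ℝ) := by exact_mod_cast h
  linarith [Real.sqrt_le_sqrt h2]

theorem sum_dsq (X : ℕ) : ∑ n ∈ Icc 1 X, dsq n ≤ √((Nat.nth Nat.Prime X : ℕ) : ℝ) := by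
  have h : ∀ X : ℕ, ∑ n ∈ Icc 1 X, dsq n = √((Nat.nth Nat.Prime X : ℕ) : ℝ) - √((Nat.nth Nat.Prime 0 : ℕ) : ℝ) := by
    intro X
    induction X with
    | zero => simp
    | succ X ih =>
      rw [Finset.sum_Icc_succ_top (by omega), ih]
      unfold dsq
      rw [Nat.add_sub_cancel]
      ring
  rw [h X]
  linarith [Real.sqrt_nonneg ((Nat.nth Nat.Prime 0 : ℕ) : ℝ)]

/-- the bound for the `K`-th prime (as in `H774EP.Core` of the starting library) -/
theorem nth_le {K : ℕ} (hK : 6 ≤ K) : (Nat.nth Nat.Prime K : ℝ) ≤ 9 * K * Real.log K := by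
  set n := Nat.nth Nat.Prime K with hn
  have hnp : n.Prime := Nat.prime_nth_prime K
  have hnK : K + 2 ≤ n := Nat.add_two_le_nth_prime K
  have hpi : Nat.primeCounting n = K + 1 := by
    unfold Nat.primeCounting Nat.primeCounting'
    rw [Nat.count_succ, if_pos hnp, hn, Nat.count_nth_of_infinite Nat.infinite_setOfPred_prime]
  have h1 := Chebyshev.psi_le_primeCounting_mul_log n
  have h2 := Chebyshev.psi_ge n
  rw [hpi] at h1
  push_cast at h1
  have hKr : (6 : ℝ) ≤ K := by exact_mod_cast hK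
  have hnr : (8 : ℝ) ≤ n := by exact_mod_cast (by omega : 8 ≤ n)
  have hlog2 := Real.log_two_gt_d9
  have hln : 0 < Real.log n := Real.log_pos (by linarith)
  have h3 : Real.log (n + 1) ≤ 2 * Real.log n := by
    rw [← Real.log_rpow (by linarith), ← Nat.cast_ofNat (n := 2)]
    rw [Real.rpow_natCast]
    exact Real.log_le_log (by linarith) (by nlinarith)
  have h4 : (n : ℝ) * Real.log 2 ≤ (K + 3) * Real.log n := by linarith
  have h5 : (n : ℝ) * 0.69 ≤ (K + 3) * Real.log n := le_trans (by nlinarith) h4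
  set t := Real.sqrt n with ht
  have htt : t * t = n := Real.mul_self_sqrt (by linarith)
  have ht0 : 0 < t := Real.sqrt_pos.2 (by linarith)
  have h6 : Real.log n = 2 * Real.log t := by
    rw [← htt, Real.log_mul ht0.ne' ht0.ne']; ring
  have h7 : Real.log t ≤ t := by
    have := Real.log_le_sub_one_of_pos ht0; linarith
  have h8 : t ≤ 3 * (K + 3) := by
    by_contra hcon
    push Not at hcon
    have : t * t * 0.69 ≤ (K + 3) * (2 * t) := by
      rw [htt]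
      refine h5.trans ?_
      rw [h6]
      nlinarith
    nlinarith
  have h9 : Real.log n ≤ 4 * Real.log K := by
    have e1 : Real.log t ≤ Real.log (K * K) := Real.log_le_log ht0 (by nlinarith)
    rw [Real.log_mul (by linarith) (by linarith)] at e1
    rw [h6]; linarith
  have hlK : 0 < Real.log K := Real.log_pos (by linarith)
  have h10 : (n : ℝ) * 0.69 ≤ (K + 3) * (4 * Real.log K) := h5.trans (by nlinarith)
  nlinarith [mul_pos (by linarith : (0:ℝ) < K) hlK, mul_nonneg (by linarith : (0:ℝ) ≤ K - 6) hlK.le]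

theorem nth_bound (ε : ℝ) (hε : 0 < ε) : ∃ C : ℝ, 0 < C ∧ ∀ X : ℕ, 1 ≤ X →
    ((Nat.nth Nat.Prime X : ℕ) : ℝ) ≤ C * (X : ℝ) ^ (1 + ε) := by
  refine ⟨9 / ε + Nat.nth Nat.Prime 6, by positivity, fun X hX => ?_⟩
  have hX1 : (1 : ℝ) ≤ X := by exact_mod_cast hX
  have hXe : (1 : ℝ) ≤ (X : ℝ) ^ (1 + ε) := Real.one_le_rpow hX1 (by linarith)
  rcases Nat.lt_or_ge X 6 with h | h
  · have h1 : Nat.nth Nat.Prime X ≤ Nat.nth Nat.Prime 6 :=
      (Nat.nth_monotone Nat.infinite_setOfPred_prime) h.le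
    have h2 : ((Nat.nth Nat.Prime X : ℕ) : ℝ) ≤ ((Nat.nth Nat.Prime 6 : ℕ) : ℝ) := by exact_mod_cast h1
    have h3 : (0 : ℝ) ≤ ((Nat.nth Nat.Prime 6 : ℕ) : ℝ) := Nat.cast_nonneg _
    have h4 : 0 < 9 / ε := by positivity
    calc ((Nat.nth Nat.Prime X : ℕ) : ℝ) ≤ ((Nat.nth Nat.Prime 6 : ℕ) : ℝ) * 1 := by linarith
      _ ≤ (9 / ε + Nat.nth Nat.Prime 6) * (X : ℝ) ^ (1 + ε) := by
        apply mul_le_mul _ hXe zero_le_one (by positivity)
        linarith
  · have h1 := nth_le h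
    have h2 : Real.log X ≤ (X : ℝ) ^ ε / ε := Real.log_le_rpow_div (by linarith) hε
    have h3 : (0 : ℝ) ≤ ((Nat.nth Nat.Prime 6 : ℕ) : ℝ) := Nat.cast_nonneg _
    calc ((Nat.nth Nat.Prime X : ℕ) : ℝ) ≤ 9 * X * Real.log X := h1
      _ ≤ 9 * X * ((X : ℝ) ^ ε / ε) := by
        apply mul_le_mul_of_nonneg_left h2 (by positivity)
      _ = 9 / ε * (X : ℝ) ^ (1 + ε) := by
        rw [Real.rpow_add (by linarith), Real.rpow_one]
        ring
      _ ≤ (9 / ε + Nat.nth Nat.Prime 6) * (X : ℝ) ^ (1 + ε) := by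
        apply mul_le_mul_of_nonneg_right _ (by linarith)
        linarith

/-- the number of the large differences -/
theorem count (η : ℝ) (hη : 0 ≤ η) : ∀ ε : ℝ, 0 < ε → ∃ C : ℝ, ∀ X : ℕ, 1 ≤ X →
    ({n : ℕ | 1 ≤ n ∧ n ≤ X ∧ ¬ Small η n}.ncard : ℝ) ≤ C * (X : ℝ) ^ (1 / 2 + η + ε) := by
  classical
  intro ε hε
  obtain ⟨C, hC, hb⟩ := nth_bound (2 * ε) (by linarith)
  refine ⟨√C, fun X hX => ?_⟩
  have hX1 : (1 : ℝ) ≤ X := by exact_mod_cast hX
  have hX0 : (0 : ℝ) < X := by linarith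
  have e : {n : ℕ | 1 ≤ n ∧ n ≤ X ∧ ¬ Small η n} = ((Icc 1 X).filter (fun n => ¬ Small η n) : Finset ℕ) := by
    ext n
    simp [and_assoc]
  rw [e, Set.ncard_coe_finset]
  set B := (Icc 1 X).filter (fun n => ¬ Small η n) with hB
  have h1 : (B.card : ℝ) * (X : ℝ) ^ (-η) ≤ ∑ n ∈ Icc 1 X, dsq n := by
    calc (B.card : ℝ) * (X : ℝ) ^ (-η) = ∑ n ∈ B, (X : ℝ) ^ (-η) := by
          rw [sum_const, nsmul_eq_mul]
      _ ≤ ∑ n ∈ B, dsq n := by
        apply sum_le_sum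
        intro n hn
        rw [hB, mem_filter, mem_Icc] at hn
        obtain ⟨⟨hn1, hnX⟩, hn2⟩ := hn
        unfold Small at hn2
        rw [not_le] at hn2
        refine le_trans ?_ hn2.le
        have hn1' : (0 : ℝ) < n := by exact_mod_cast hn1
        have hnX' : (n : ℝ) ≤ X := by exact_mod_cast hnX
        rw [Real.rpow_neg hX0.le, Real.rpow_neg hn1'.le]
        exact inv_anti₀ (Real.rpow_pos_of_pos hn1' _) (Real.rpow_le_rpow hn1'.le hnX' hη)
      _ ≤ ∑ n ∈ Icc 1 X, dsq n := by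
        apply sum_le_sum_of_subset_of_nonneg
        · exact filter_subset _ _
        · intro n _ _
          exact dsq_nonneg n
  have h2 := h1.trans (sum_dsq X)
  have h3 : √((Nat.nth Nat.Prime X : ℕ) : ℝ) ≤ √C * (X : ℝ) ^ (1 / 2 + ε) := by
    calc √((Nat.nth Nat.Prime X : ℕ) : ℝ) ≤ √(C * (X : ℝ) ^ (1 + 2 * ε)) := Real.sqrt_le_sqrt (hb X hX)
      _ = √C * √((X : ℝ) ^ (1 + 2 * ε)) := Real.sqrt_mul hC.le _
      _ = √C * (X : ℝ) ^ (1 / 2 + ε) := by
        rw [Real.sqrt_eq_rpow, Real.sqrt_eq_rpow, ← Real.rpow_mul hX0.le]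
        congr 2
        ring
  have h4 : (B.card : ℝ) = (B.card : ℝ) * (X : ℝ) ^ (-η) * (X : ℝ) ^ η := by
    rw [mul_assoc, ← Real.rpow_add hX0, neg_add_cancel, Real.rpow_zero, mul_one]
  rw [h4]
  calc (B.card : ℝ) * (X : ℝ) ^ (-η) * (X : ℝ) ^ η ≤ √C * (X : ℝ) ^ (1 / 2 + ε) * (X : ℝ) ^ η :=
        mul_le_mul_of_nonneg_right (h2.trans h3) (by positivity)
    _ = √C * (X : ℝ) ^ (1 / 2 + η + ε) := by
      rw [mul_assoc, ← Real.rpow_add hX0]
      congr 2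
      ring

end Pool.Agent.T9h59.SQ
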